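import Pool.Agent.H45.EG4.S

/-!
# EG4, row EX1G: a missing vector ends with a positive entry
-/

set_option autoImplicit false

namespace Pool.EG4

open Pool.EG3 (Mo Cm)
open Pool.EGC (lx)

theorem e85_mo {m : ℕ} {c : Fin m → ℕ∞} {d : ℕ} {x : Fin m → ℕ} :
    x ∈ Mo c d ↔ ∑ i, x i = d ∧ ∀ i, (x i : ℕ∞) < c i := by
  classical
  unfold Mo
  rw [Finset.mem_filter, Finset.mem_piAntidiag]
  constructor
  · rintro ⟨⟨h, _⟩, h2⟩
    exact ⟨h, h2⟩
  · rintro ⟨h, h2⟩
    exact ⟨⟨h, fun i _ => Finset.mem_univ i⟩, h2⟩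

/-- Moving `t` units from the place `j` to the place `i`. -/
theorem e85_mv {m : ℕ} (x : Fin m → ℕ) (i j : Fin m) (hij : i ≠ j) (t : ℕ) (ht : t ≤ x j) :
    ∃ y : Fin m → ℕ, y i = x i + t ∧ y j = x j - t ∧ (∀ k, k ≠ i → k ≠ j → y k = x k) ∧
      ∑ k, y k = ∑ k, x k := by
  set y : Fin m → ℕ := fun k => if k = i then x i + t else if k = j then x j - t else x k
    with hy
  have h1 : y i = x i + t := by simp [hy]
  have h2 : y j = x j - t := by simp [hy, Ne.symm hij]
  have h3 : ∀ k, k ≠ i → k ≠ j → y k = x k := by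
    intro k h1 h2
    simp [hy, h1, h2]
  refine ⟨y, h1, h2, h3, ?_⟩
  have e1 : y + Pi.single j t = x + Pi.single i t := by
    funext k
    by_cases k1 : k = i
    · subst k1
      simp [h1, hij]
    · by_cases k2 : k = j
      · subst k2
        simp [h2, k1]
        omega
      · simp [h3 k k1 k2, k1, k2]
  have e2 : ∑ k, (y + Pi.single j t : Fin m → ℕ) k = ∑ k, (x + Pi.single i t : Fin m → ℕ) k := by
    rw [e1]
  simp only [Pi.add_apply, Finset.sum_add_distrib, Finset.sum_pi_single', Finset.mem_univ,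
    if_true] at e2
  omega

theorem e85_lt {m : ℕ} (a b : Fin (m + 3) → ℕ) (hs : ∑ i, a i = ∑ i, b i)
    (h : ∀ i, i ≠ 0 → b i < a i) : a 0 + (a 1 - b 1) < b 0 := by
  have e1 : ∀ x : Fin (m + 3) → ℕ, ∑ i, x i = x 0 + (x 1 + ∑ i : Fin (m + 1), x i.succ.succ) := by
    intro x
    rw [Fin.sum_univ_succ, Fin.sum_univ_succ]
    rfl
  rw [e1 a, e1 b] at hs
  have h1 : b 1 < a 1 := h 1 (by
    intro h
    have := congrArg Fin.val h
    simp at this)
  have h2 : ∑ i : Fin (m + 1), b i.succ.succ < ∑ i : Fin (m + 1), a i.succ.succ :=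
    Finset.sum_lt_sum_of_nonempty ⟨0, Finset.mem_univ 0⟩
      (fun i _ => h _ (Fin.succ_ne_zero _))
  omega

/-- EX1G. -/
theorem t_ex1g : EX1GStmt := by
  intro m c hc d A hA hcm b hb hbA a ha hab
  obtain ⟨hbs, hbc⟩ := e85_mo.1 hb
  obtain ⟨has, hac⟩ := e85_mo.1 (hA ha)
  obtain ⟨hmon, -⟩ := hc
  -- no common coordinate
  have hne : ∀ i, a i ≠ b i := fun i hi => hbA (hcm i a ha b hb hi hab)
  have h0 : a 0 < b 0 := by
    obtain ⟨i, hi, hi2⟩ := hab
    rcases eq_or_ne i 0 with h | h
    · rw [h] at hi2; exact hi2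
    · exact absurd (hi 0 (Fin.pos_iff_ne_zero.2 h)) (hne 0)
  have h10 : (1 : Fin (m + 3)) ≠ 0 := by
    intro h
    have := congrArg Fin.val h
    simp at this
  have hl0 : Fin.last (m + 2) ≠ 0 := by
    intro h
    have := congrArg Fin.val h
    rw [Fin.val_last, Fin.val_zero] at this
    omega
  have h1l : (1 : Fin (m + 3)) ≠ Fin.last (m + 2) := by
    intro h
    have h2 := congrArg Fin.val h
    rw [Fin.val_last] at h2
    have h3 : ((1 : Fin (m + 3)) : ℕ) = 1 := by simp
    omega
  -- two ways to conclude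
  have fin : ∀ x : Fin (m + 3) → ℕ, ∑ i, x i = d → (∀ i, (x i : ℕ∞) < c i) → ∀ i j,
      a i = x i → lx a x → x j = b j → lx x b → False := by
    intro x hx1 hx2 i j h1 h2 h3 h4
    have hx : x ∈ Mo c d := e85_mo.2 ⟨hx1, hx2⟩
    exact hbA (hcm j x (hcm i a ha x hx h1 h2) b hb h3 h4)
  have lz : ∀ x y : Fin (m + 3) → ℕ, x 0 < y 0 → lx x y := fun x y h =>
    ⟨0, fun j hj => absurd hj (Fin.not_lt_zero j), h⟩
  have lle : ∀ j : Fin (m + 3), c j ≤ c (Fin.last (m + 2)) := fun j => hmon (Fin.le_last j)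
  refine ⟨?_, ?_⟩
  · intro hbl
    have hal : b (Fin.last (m + 2)) < a (Fin.last (m + 2)) := by
      have := hne (Fin.last (m + 2))
      omega
    by_cases hj : ∃ j : Fin (m + 3), j ≠ 0 ∧ a j < b j
    · obtain ⟨j, hj0, hj⟩ := hj
      have hjl : Fin.last (m + 2) ≠ j := by
        intro h
        rw [← h] at hj
        omega
      obtain ⟨x, x1, x2, x3, x4⟩ := e85_mv b (Fin.last (m + 2)) j hjl (b j - a j) (Nat.sub_le _ _)
      have hx0 : x 0 = b 0 := x3 0 (Ne.symm hl0) (Ne.symm hj0)
      have hxj : x j = a j := by omega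
      have hxl : x (Fin.last (m + 2)) ≤ b j := by omega
      refine fin x (x4.trans hbs) (fun i => ?_) j 0 hxj.symm (lz _ _ (by omega)) hx0 ?_
      · by_cases i1 : i = Fin.last (m + 2)
        · rw [i1]
          exact lt_of_le_of_lt (by exact_mod_cast hxl) (lt_of_lt_of_le (hbc j) (lle j))
        · by_cases i2 : i = j
          · rw [i2, hxj]
            exact hac j
          · rw [x3 i i1 i2]
            exact hbc i
      · refine ⟨j, fun k hk => x3 k ?_ (ne_of_lt hk), by omega⟩
        intro h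
        rw [h] at hk
        exact absurd (lt_of_lt_of_le hk (Fin.le_last j)) (lt_irrefl _)
    · have hall : ∀ i, i ≠ 0 → b i < a i := by
        intro i hi
        have h1 := hne i
        have h2 : ¬ a i < b i := fun h => hj ⟨i, hi, h⟩
        omega
      have hlt := e85_lt a b (has.trans hbs.symm) hall
      have h1 := hall 1 h10
      obtain ⟨x, x1, x2, x3, x4⟩ := e85_mv b 1 0 h10 (a 1 - b 1) (by omega)
      have hx1 : x 1 = a 1 := by omega
      have hx0 : x 0 ≤ b 0 := by omega
      refine fin x (x4.trans hbs) (fun i => ?_) 1 (Fin.last (m + 2)) hx1.symm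
        (lz _ _ (by omega)) (x3 _ (Ne.symm h1l) hl0) (lz _ _ (by omega))
      by_cases i1 : i = 1
      · rw [i1, hx1]
        exact hac 1
      · by_cases i2 : i = 0
        · rw [i2]
          exact lt_of_le_of_lt (by exact_mod_cast hx0) (hbc 0)
        · rw [x3 i i1 i2]
          exact hbc i
  · by_contra hcon
    have hcl : c (Fin.last (m + 2)) ≤ ((a (Fin.last (m + 2)) + 1 : ℕ) : ℕ∞) := not_lt.1 hcon
    have hbl : ∀ j, b j ≤ a (Fin.last (m + 2)) := by
      intro j
      have h1 := lt_of_lt_of_le (hbc j) ((lle j).trans hcl)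
      have h2 : b j < a (Fin.last (m + 2)) + 1 := by exact_mod_cast h1
      omega
    by_cases hj : ∃ j : Fin (m + 3), j ≠ 0 ∧ a j < b j
    · obtain ⟨j, hj0, hj⟩ := hj
      have hjl : j ≠ Fin.last (m + 2) := by
        intro h
        have := hbl j
        rw [h] at this hj
        omega
      obtain ⟨x, x1, x2, x3, x4⟩ := e85_mv a j (Fin.last (m + 2)) hjl (b j - a j)
        (by have := hbl j; omega)
      have hx0 : x 0 = a 0 := x3 0 (Ne.symm hj0) (Ne.symm hl0)
      have hxj : x j = b j := by omega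
      have hxl : x (Fin.last (m + 2)) ≤ a (Fin.last (m + 2)) := by omega
      refine fin x (x4.trans has) (fun i => ?_) 0 j hx0.symm ?_ hxj (lz _ _ (by omega))
      · by_cases i1 : i = Fin.last (m + 2)
        · rw [i1]
          exact lt_of_le_of_lt (by exact_mod_cast hxl) (hac _)
        · by_cases i2 : i = j
          · rw [i2, hxj]
            exact hbc j
          · rw [x3 i i2 i1]
            exact hac i
      · refine ⟨j, fun k hk => (x3 k (ne_of_lt hk) ?_).symm, by omega⟩
        intro h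
        rw [h] at hk
        exact absurd (lt_of_lt_of_le hk (Fin.le_last j)) (lt_irrefl _)
    · have hall : ∀ i, i ≠ 0 → b i < a i := by
        intro i hi
        have h1 := hne i
        have h2 : ¬ a i < b i := fun h => hj ⟨i, hi, h⟩
        omega
      have hlt := e85_lt a b (has.trans hbs.symm) hall
      have h1 := hall 1 h10
      obtain ⟨x, x1, x2, x3, x4⟩ := e85_mv a 0 1 (Ne.symm h10) (a 1 - b 1) (Nat.sub_le _ _)
      have hx1 : x 1 = b 1 := by omega
      have hx0 : x 0 ≤ b 0 := by omega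
      refine fin x (x4.trans has) (fun i => ?_) (Fin.last (m + 2)) 1
        (x3 _ hl0 (Ne.symm h1l)).symm (lz _ _ (by omega)) hx1 (lz _ _ (by omega))
      by_cases i1 : i = 1
      · rw [i1, hx1]
        exact hbc 1
      · by_cases i2 : i = 0
        · rw [i2]
          exact lt_of_le_of_lt (by exact_mod_cast hx0) (hbc 0)
        · rw [x3 i i2 i1]
          exact hac i

end Pool.EG4
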