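import Pool.Agent.H45.EG4.S
import Pool.Agent.H40.EG3.SGE

/-!
# EG4, row REVG: reversal of the capped vectors
-/

set_option autoImplicit false

namespace Pool.EG4

open Pool.EG3 (Mo Cm Sg up)
open Pool.EGC (lx)

theorem r85_mo {m : ℕ} (e : Fin m → ℕ) (d : ℕ) (x : Fin m → ℕ) :
    x ∈ Mo (fun i => (e i : ℕ∞)) d ↔ ∑ i, x i = d ∧ ∀ i, x i < e i := by
  rw [Pool.EG3.h40_mem]
  simp only [Nat.cast_lt]

/-- The reversed vector. -/
def r85 {m : ℕ} (e x : Fin m → ℕ) : Fin m → ℕ := fun i => e i - 1 - x i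

theorem r85_inv {m : ℕ} (e x : Fin m → ℕ) (hx : ∀ i, x i < e i) : r85 e (r85 e x) = x := by
  funext i
  have := hx i
  simp only [r85]
  omega

theorem r85_sum {m : ℕ} (e x : Fin m → ℕ) (hx : ∀ i, x i < e i) :
    ∑ i, r85 e x i + ∑ i, x i = ∑ i, (e i - 1) := by
  rw [← Finset.sum_add_distrib]
  refine Finset.sum_congr rfl fun i _ => ?_
  have := hx i
  simp only [r85]
  omega

theorem r85_mem {m : ℕ} (e : Fin m → ℕ) (s : ℕ) (he : ∀ i, 1 ≤ e i) (hs : s = ∑ i, (e i - 1))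
    (d : ℕ) (x : Fin m → ℕ) (hx : x ∈ Mo (fun i => (e i : ℕ∞)) d) :
    r85 e x ∈ Mo (fun i => (e i : ℕ∞)) (s - d) := by
  rw [r85_mo] at hx ⊢
  have h1 := r85_sum e x hx.2
  refine ⟨by omega, fun i => ?_⟩
  have := he i
  simp only [r85]
  omega

theorem r85_le {m : ℕ} (e : Fin m → ℕ) (s : ℕ) (hs : s = ∑ i, (e i - 1))
    (d : ℕ) (x : Fin m → ℕ) (hx : x ∈ Mo (fun i => (e i : ℕ∞)) d) : d ≤ s := by
  rw [r85_mo] at hx
  have h1 := r85_sum e x hx.2
  omega

theorem r85_lx {m : ℕ} (e x y : Fin m → ℕ) (hy : ∀ i, y i < e i) (h : lx x y) :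
    lx (r85 e y) (r85 e x) := by
  obtain ⟨i, h1, h2⟩ := h
  refine ⟨i, fun j hj => ?_, ?_⟩
  · simp only [r85, h1 j hj]
  · have := hy i
    simp only [r85]
    omega

/-- The complement of a segment, reversed, is a segment. -/
theorem r85_seg {m : ℕ} (e : Fin m → ℕ) (s : ℕ) (he : ∀ i, 1 ≤ e i) (hs : s = ∑ i, (e i - 1))
    (d : ℕ) (hd : d ≤ s) (A A' : Finset (Fin m → ℕ)) (hA : Sg (fun i => (e i : ℕ∞)) d A)
    (hA' : Sg (fun i => (e i : ℕ∞)) (s - d) A')
    (hc : A.card + A'.card = (Mo (fun i => (e i : ℕ∞)) d).card) (x : Fin m → ℕ)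
    (hx : x ∈ Mo (fun i => (e i : ℕ∞)) d) : r85 e x ∈ A' ↔ x ∉ A := by
  classical
  set S : Finset (Fin m → ℕ) := (Mo (fun i => (e i : ℕ∞)) d \ A).image (r85 e) with hS
  have hSg : Sg (fun i => (e i : ℕ∞)) (s - d) S := by
    constructor
    · intro z hz
      rw [hS, Finset.mem_image] at hz
      obtain ⟨u, hu, rfl⟩ := hz
      exact r85_mem e s he hs d u (Finset.mem_sdiff.1 hu).1
    · intro z hz y hy hzy
      rw [hS, Finset.mem_image] at hz ⊢
      obtain ⟨u, hu, rfl⟩ := hz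
      obtain ⟨hu1, hu2⟩ := Finset.mem_sdiff.1 hu
      have hy1 := ((r85_mo e _ y).1 hy).2
      have hu3 := ((r85_mo e _ u).1 hu1).2
      have hm : r85 e y ∈ Mo (fun i => (e i : ℕ∞)) d := by
        have := r85_mem e s he hs (s - d) y hy
        rwa [Nat.sub_sub_self hd] at this
      refine ⟨r85 e y, Finset.mem_sdiff.2 ⟨hm, fun h => hu2 ?_⟩, r85_inv e y hy1⟩
      have h2 := r85_lx e _ y hy1 hzy
      rw [r85_inv e u hu3] at h2
      exact hA.2 _ h u hu1 h2
  have hinj : Set.InjOn (r85 e) (Mo (fun i => (e i : ℕ∞)) d \ A : Finset (Fin m → ℕ)) := by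
    intro u hu v hv huv
    rw [Finset.mem_coe, Finset.mem_sdiff] at hu hv
    have := congrArg (r85 e) huv
    rwa [r85_inv e u ((r85_mo e _ u).1 hu.1).2, r85_inv e v ((r85_mo e _ v).1 hv.1).2] at this
  have hcard : S.card = A'.card := by
    rw [hS, Finset.card_image_of_injOn hinj, Finset.card_sdiff_of_subset hA.1]
    omega
  have hEq : S = A' :=
    Finset.Subset.antisymm
      ((Pool.EG3.t_sge m (fun i => (e i : ℕ∞)) (s - d)).2 S A' hSg hA' (le_of_eq hcard))
      ((Pool.EG3.t_sge m (fun i => (e i : ℕ∞)) (s - d)).2 A' S hA' hSg (le_of_eq hcard.symm))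
  rw [← hEq, hS, Finset.mem_image]
  constructor
  · rintro ⟨u, hu, h1⟩
    rw [Finset.mem_sdiff] at hu
    have := congrArg (r85 e) h1
    rw [r85_inv e u ((r85_mo e _ u).1 hu.1).2, r85_inv e x ((r85_mo e _ x).1 hx).2] at this
    rw [← this]
    exact hu.2
  · intro h
    exact ⟨x, Finset.mem_sdiff.2 ⟨hx, h⟩, rfl⟩

/-- REVG. -/
theorem t_revg : REVGStmt := by
  classical
  intro m e s he hs
  refine ⟨?_, ?_, ?_, ?_⟩
  · intro d hd
    refine Finset.card_nbij' (r85 e) (r85 e) ?_ ?_ ?_ ?_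
    · intro x hx
      have := r85_mem e s he hs (s - d) x hx
      rwa [Nat.sub_sub_self hd] at this
    · intro x hx
      exact r85_mem e s he hs d x hx
    · intro x hx
      exact r85_inv e x ((r85_mo e _ x).1 hx).2
    · intro x hx
      exact r85_inv e x ((r85_mo e _ x).1 hx).2
  · rw [Finset.card_eq_one]
    refine ⟨fun _ => 0, ?_⟩
    ext x
    rw [r85_mo, Finset.mem_singleton]
    constructor
    · rintro ⟨h1, -⟩
      funext i
      exact Finset.sum_eq_zero_iff.1 h1 i (Finset.mem_univ i)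
    · rintro rfl
      exact ⟨Finset.sum_const_zero, fun i => he i⟩
  · intro d hd
    rw [Finset.eq_empty_iff_forall_notMem]
    intro x hx
    have := r85_le e s hs d x hx
    omega
  · intro d hd A B A' B' hA hB hA' hB' hcA hcB hup y hy
    rw [Pool.EG3.h40_up] at hy
    obtain ⟨hy, x, hx, i, hyx⟩ := hy
    by_contra hyB
    have h1 := (r85_seg e s he hs (d + 1) hd B B' hB hB' hcB y hy).2 hyB
    have hxm := hA.1 hx
    have hx1 := ((r85_mo e _ x).1 hxm).2
    have hy1 := ((r85_mo e _ y).1 hy).2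
    refine (r85_seg e s he hs d hd.le A A' hA hA' hcA x hxm).1 (hup ?_) hx
    rw [Pool.EG3.h40_up]
    have e1 : s - (d + 1) + 1 = s - d := by omega
    rw [e1]
    refine ⟨r85_mem e s he hs d x hxm, r85 e y, h1, i, ?_⟩
    funext j
    have h2 := hy1 j
    by_cases hj : j = i
    · rw [hj] at h2 ⊢
      rw [hyx] at h2 ⊢
      simp only [r85, Pi.add_apply, Pi.single_eq_same] at h2 ⊢
      omega
    · rw [hyx]
      simp only [r85, Pi.add_apply, Pi.single_eq_of_ne hj, add_zero]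

end Pool.EG4
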